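import Pool.Agent.HUK.Stmts

/-! HUK, row WIN: the exceptional set of a stably irreducible polynomial has few elements in all the
segments. -/

set_option autoImplicit false

namespace Pool.Agent.HUK.H56

open Polynomial NumberField Pool.Agent.HIK

/-! ### The field generated by `x` and the coefficients -/

section field

variable {k : Type} [Field k] [NumberField k] (ψ : k →+* QB) (x : QB)

/-- the field generated by `x` and by the image of `ψ` -/
noncomputable def Lf : IntermediateField ℚ QB :=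
  IntermediateField.adjoin ℚ {x} ⊔ (RingHom.toRatAlgHom ψ).fieldRange

theorem mem_x : x ∈ Lf ψ x :=
  (le_sup_left : IntermediateField.adjoin ℚ {x} ≤ Lf ψ x)
    (IntermediateField.mem_adjoin_simple_self ℚ x)

theorem mem_psi (c : k) : ψ c ∈ Lf ψ x :=
  (le_sup_right : (RingHom.toRatAlgHom ψ).fieldRange ≤ Lf ψ x) ⟨c, rfl⟩

theorem adjoin_le (κ : ℕ) :
    IntermediateField.adjoin ℚ (insert (x + κ) (Set.range ψ)) ≤ Lf ψ x := by
  rw [IntermediateField.adjoin_le_iff]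
  rintro y (rfl | ⟨c, rfl⟩)
  · exact add_mem (mem_x ψ x) (natCast_mem _ κ)
  · exact mem_psi ψ x c

theorem fin_x {m B : ℕ} {x : QB} (hx : x ∈ Ip QB m B) :
    FiniteDimensional ℚ (IntermediateField.adjoin ℚ {x}) ∧
      Module.finrank ℚ (IntermediateField.adjoin ℚ {x}) ≤ m := by
  obtain ⟨p, hp, hd, -, h0⟩ := hx
  have h1 : aeval x (p.map (Int.castRingHom ℚ)) = 0 := by
    rw [← algebraMap_int_eq, aeval_map_algebraMap]
    exact h0
  have h2 : (p.map (Int.castRingHom ℚ)).Monic := hp.map _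
  have hint : IsIntegral ℚ x := ⟨_, h2, h1⟩
  refine ⟨IntermediateField.adjoin.finiteDimensional hint, ?_⟩
  rw [IntermediateField.adjoin.finrank hint]
  refine (natDegree_le_of_dvd (minpoly.dvd ℚ x h1) h2.ne_zero).trans ?_
  rw [hp.natDegree_map]
  exact hd

theorem fin_psi : FiniteDimensional ℚ (RingHom.toRatAlgHom ψ).fieldRange ∧
    Module.finrank ℚ (RingHom.toRatAlgHom ψ).fieldRange = Module.finrank ℚ k := by
  have e : k ≃ₗ[ℚ] (RingHom.toRatAlgHom ψ).fieldRange :=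
    (AlgEquiv.ofInjectiveField (RingHom.toRatAlgHom ψ)).toLinearEquiv
  exact ⟨Module.Finite.equiv e, e.finrank_eq.symm⟩

theorem fin_L {m B : ℕ} {x : QB} (hx : x ∈ Ip QB m B) : FiniteDimensional ℚ (Lf ψ x) ∧
    Module.finrank ℚ (Lf ψ x) ≤ m * Module.finrank ℚ k := by
  obtain ⟨h1, h2⟩ := fin_x hx
  obtain ⟨h3, h4⟩ := fin_psi ψ
  refine ⟨IntermediateField.finiteDimensional_sup _ _, ?_⟩
  refine (IntermediateField.finrank_sup_le _ _).trans ?_
  rw [h4]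
  exact Nat.mul_le_mul_right _ h2

/-- the embedding of `k` in the field -/
noncomputable def jL : k →+* Lf ψ x := ψ.codRestrict (Lf ψ x) (mem_psi ψ x)

theorem jL_val (c : k) : ((jL ψ x c : Lf ψ x) : QB) = ψ c := rfl

/-- `x` as an element of the field -/
noncomputable def xL : Lf ψ x := ⟨x, mem_x ψ x⟩

theorem xL_ip {m B : ℕ} {x : QB} (hx : x ∈ Ip QB m B) : xL ψ x ∈ Ip (Lf ψ x) m B := by
  obtain ⟨p, hp, hd, hc, h0⟩ := hx
  refine ⟨p, hp, hd, hc, ?_⟩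
  apply (algebraMap (Lf ψ x) QB).injective
  rw [map_zero, ← aeval_algebraMap_apply]
  exact h0

theorem xL_int {m B : ℕ} {x : QB} (hx : x ∈ Ip QB m B) : IsIntegral ℤ (xL ψ x) := by
  obtain ⟨p, hp, -, -, h0⟩ := xL_ip ψ hx
  exact ⟨p, hp, h0⟩

end field

/-- zeros of monic polynomials with integral coefficients are integral -/
theorem zero_int {L : Type} [Field L] [NumberField L] {G : (𝓞 L)[X][X]} (hG : G.Monic) (a : 𝓞 L)
    (y' : L) (h : evalEval (a : L) y' (G.map (mapRingHom (algebraMap (𝓞 L) L))) = 0) :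
    ∃ y : 𝓞 L, (y : L) = y' ∧ evalEval a y G = 0 := by
  have h1 : aeval y' (G.map (evalRingHom a)) = 0 := by
    rw [← h, ← map_evalRingHom_eval, Polynomial.map_map, aeval_def, ← eval_map,
      Polynomial.map_map]
    congr 2
    ext p
    · simp
    · simp
  have h2 : IsIntegral (𝓞 L) y' := ⟨_, hG.map _, h1⟩
  have h3 : IsIntegral ℤ y' := isIntegral_trans y' h2
  refine ⟨⟨y', h3⟩, rfl, ?_⟩
  apply RingOfIntegers.coe_injective
  have h4 := map_mapRingHom_evalEval (algebraMap (𝓞 L) L) G a ⟨y', h3⟩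
  rw [map_zero]
  exact h4.symm.trans h

section main

variable {k : Type} [Field k] [NumberField k] (ψ : k →+* QB) (x : QB)

theorem pj_map [NumberField (Lf ψ x)] (g : (𝓞 k)[X][X]) :
    ((pj (jL ψ x) g).map (mapRingHom (algebraMap (𝓞 (Lf ψ x)) (Lf ψ x)))).map
      (mapRingHom (algebraMap (Lf ψ x) QB)) =
    g.map (mapRingHom (ψ.comp (algebraMap (𝓞 k) k))) := by
  unfold pj
  rw [coe_mapRingHom, Polynomial.map_map, Polynomial.map_map]
  congr 1
  rw [mapRingHom_comp, mapRingHom_comp]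
  congr 1

/-- bad parameters give zeros over the field -/
theorem bad [NumberField (Lf ψ x)] {g : (𝓞 k)[X][X]} (hg : g.Monic) (a0 : 𝓞 (Lf ψ x))
    (ha0 : (a0 : Lf ψ x) = xL ψ x) (κ : ℕ)
    (h : ∃ y ∈ IntermediateField.adjoin ℚ (insert (x + κ) (Set.range ψ)),
      evalEval (x + κ) y (g.map (mapRingHom (ψ.comp (algebraMap (𝓞 k) k)))) = 0) :
    ∃ y : 𝓞 (Lf ψ x), evalEval (a0 + κ) y (pj (jL ψ x) g) = 0 := by
  obtain ⟨y, hy, h0⟩ := h
  have hyL : y ∈ Lf ψ x := adjoin_le ψ x κ hy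
  have hm : (pj (jL ψ x) g).Monic := by
    unfold pj
    rw [coe_mapRingHom]
    exact hg.map _
  have h1 : evalEval ((a0 + κ : 𝓞 (Lf ψ x)) : Lf ψ x) ⟨y, hyL⟩
      ((pj (jL ψ x) g).map (mapRingHom (algebraMap (𝓞 (Lf ψ x)) (Lf ψ x)))) = 0 := by
    apply (algebraMap (Lf ψ x) QB).injective
    rw [map_zero, ← map_mapRingHom_evalEval, pj_map]
    have e1 : algebraMap (Lf ψ x) QB ((a0 + κ : 𝓞 (Lf ψ x)) : Lf ψ x) = x + κ := by
      have e2 : ((a0 + κ : 𝓞 (Lf ψ x)) : Lf ψ x) = xL ψ x + κ := by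
        rw [← ha0]
        exact (map_add (algebraMap (𝓞 (Lf ψ x)) (Lf ψ x)) a0 κ).trans
          (congrArg (fun z => (a0 : Lf ψ x) + z) (map_natCast (algebraMap (𝓞 (Lf ψ x)) (Lf ψ x)) κ))
      rw [e2, map_add, map_natCast]
      rfl
    rw [e1]
    exact h0
  obtain ⟨y', -, hy'⟩ := zero_int hm (a0 + κ) ⟨y, hyL⟩ h1
  exact ⟨y', hy'⟩

/-- the bound for one embedding -/
theorem one (cau : CauStmt) {g : (𝓞 k)[X][X]} (hg : g.Monic) {m A X R D H C' R0 : ℕ}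
    (hX : 1 ≤ X) (hR : X ≤ R ^ 4) (hR0 : R0 ≤ R) (hx : x ∈ Ip QB m (X ^ A))
    (hadh : ∀ (K : Type) [Field K] [NumberField K] (j : k →+* K), AdmH K D H (pj j g))
    (hcnu : ∀ (K : Type) [Field K] [NumberField K], Module.finrank ℚ K ≤ m * Module.finrank ℚ k →
      ∀ g : (𝓞 K)[X][X], AdmH K D H g → ∀ R ≥ R0, ∀ a0 : 𝓞 K,
      house (a0 : K) ≤ 2 * (R : ℝ) ^ (4 * A) →
      Nat.card {n : ℕ // n < R ^ 4 ∧ ∃ y : 𝓞 K, evalEval (a0 + n) y g = 0} ≤ C' * R ^ 3) :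
    {κ : ℕ | κ < X ∧ ∃ y ∈ IntermediateField.adjoin ℚ (insert (x + κ) (Set.range ψ)),
      evalEval (x + κ) y (g.map (mapRingHom (ψ.comp (algebraMap (𝓞 k) k)))) = 0}.ncard ≤
      C' * R ^ 3 := by
  obtain ⟨hfin, hdeg⟩ := fin_L ψ hx
  haveI : NumberField (Lf ψ x) := ⟨⟩
  obtain ⟨a0, ha0⟩ : ∃ a0 : 𝓞 (Lf ψ x), (a0 : Lf ψ x) = xL ψ x := ⟨⟨xL ψ x, xL_int ψ hx⟩, rfl⟩
  have hR1 : (1 : ℝ) ≤ R := by
    have : 1 ≤ R := by
      rcases Nat.eq_zero_or_pos R with h | h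
      · rw [h] at hR
        omega
      · exact h
    exact_mod_cast this
  have hhouse : house (a0 : Lf ψ x) ≤ 2 * (R : ℝ) ^ (4 * A) := by
    rw [ha0]
    have h1 : (X : ℝ) ^ A ≤ (R : ℝ) ^ (4 * A) := by
      rw [pow_mul]
      exact pow_le_pow_left₀ (by positivity) (by exact_mod_cast hR) A
    have h2 : (1 : ℝ) ≤ (R : ℝ) ^ (4 * A) := one_le_pow₀ hR1
    have h3 : house (xL ψ x) ≤ (X : ℝ) ^ A + 1 := by
      unfold house
      refine (pi_norm_le_iff_of_nonneg (by positivity)).2 fun φ => ?_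
      have h4 := cau (Lf ψ x) φ m (X ^ A) (xL ψ x) (xL_ip ψ hx)
      push_cast at h4
      exact h4
    linarith
  refine le_trans ?_ (hcnu (Lf ψ x) hdeg _ (hadh (Lf ψ x) (jL ψ x)) R hR0 a0 hhouse)
  have e : Nat.card {n : ℕ // n < R ^ 4 ∧ ∃ y : 𝓞 (Lf ψ x),
      evalEval (a0 + n) y (pj (jL ψ x) g) = 0} =
      {n : ℕ | n < R ^ 4 ∧ ∃ y : 𝓞 (Lf ψ x), evalEval (a0 + n) y (pj (jL ψ x) g) = 0}.ncard := rfl
  rw [e]
  refine Set.ncard_le_ncard ?_ ?_
  · rintro κ ⟨h1, h2⟩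
    exact ⟨h1.trans_le hR, bad ψ x hg a0 ha0 κ h2⟩
  · exact (Set.finite_lt_nat (R ^ 4)).subset fun n hn => hn.1

end main

/-- WIN -/
theorem win (adh : AdhStmt) (cnu : CnuStmt) (cau : CauStmt) : WinStmt := by
  classical
  intro k _ _ g hg m A
  obtain ⟨H, hadh⟩ := adh k g hg
  obtain ⟨C', R0, hcnu⟩ := cnu (m * Module.finrank ℚ k) g.natDegree H A
  refine ⟨(Fintype.card (k →+* QB)) * (8 * C' + (R0 : ℝ) ^ 4), fun X hX x hx => ?_⟩
  have hXr : (1 : ℝ) ≤ X := by exact_mod_cast hX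
  -- the fourth root
  obtain ⟨s, hs⟩ : ∃ s : ℝ, s = (X : ℝ) ^ (1 / 4 : ℝ) := ⟨_, rfl⟩
  have hs0 : 0 ≤ s := by
    rw [hs]
    positivity
  have hs4 : s ^ 4 = X := by
    rw [hs, ← Real.rpow_natCast, ← Real.rpow_mul (by positivity)]
    norm_num
  have hs3 : s ^ 3 = (X : ℝ) ^ (1 - 1 / 4 : ℝ) := by
    rw [hs, ← Real.rpow_natCast, ← Real.rpow_mul (by positivity)]
    norm_num
  have hs1 : 1 ≤ s ^ 3 := by
    rw [hs3]
    exact Real.one_le_rpow hXr (by norm_num)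
  -- the length of the segment
  have hex : ∃ R : ℕ, X ≤ R ^ 4 := ⟨X, Nat.le_self_pow (by norm_num) X⟩
  obtain ⟨R, hR, hRmin⟩ : ∃ R : ℕ, X ≤ R ^ 4 ∧ ∀ r < R, ¬ X ≤ r ^ 4 :=
    ⟨Nat.find hex, Nat.find_spec hex, fun r hr => Nat.find_min hex hr⟩
  have hR1 : 1 ≤ R := by
    rcases Nat.eq_zero_or_pos R with h | h
    · rw [h] at hR
      omega
    · exact h
  have hRs : (R : ℝ) ≤ 2 * s := by
    have h1 := hRmin (R - 1) (by omega)
    rw [not_le] at h1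
    have h2 : ((R - 1 : ℕ) : ℝ) ^ 4 ≤ s ^ 4 := by
      rw [hs4]
      exact_mod_cast h1.le
    have h3 : ((R - 1 : ℕ) : ℝ) ≤ s := (pow_le_pow_iff_left₀ (by positivity) hs0 (by norm_num)).1 h2
    have h4 : 1 ≤ s := by
      by_contra h
      rw [not_le] at h
      have : s ^ 4 < 1 := pow_lt_one₀ hs0 h (by norm_num)
      rw [hs4] at this
      linarith
    rw [Nat.cast_sub hR1, Nat.cast_one] at h3
    by_cases h5 : R = 1
    · rw [h5, Nat.cast_one]
      linarith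
    · linarith
  -- the bound for one embedding
  have key : ∀ ψ : k →+* QB,
      ({κ : ℕ | κ < X ∧ ∃ y ∈ IntermediateField.adjoin ℚ (insert (x + κ) (Set.range ψ)),
      evalEval (x + κ) y (g.map (mapRingHom (ψ.comp (algebraMap (𝓞 k) k)))) = 0}.ncard : ℝ) ≤
      (8 * C' + (R0 : ℝ) ^ 4) * s ^ 3 := by
    intro ψ
    by_cases hRR : R0 ≤ R
    · have h1 := one ψ x cau hg.monic hX hR hRR hx hadh hcnu
      have h2 : (R : ℝ) ^ 3 ≤ (2 * s) ^ 3 := pow_le_pow_left₀ (by positivity) hRs 3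
      have h3 : ((C' * R ^ 3 : ℕ) : ℝ) ≤ C' * (8 * s ^ 3) := by
        push_cast
        refine mul_le_mul_of_nonneg_left ?_ (by positivity)
        calc (R : ℝ) ^ 3 ≤ (2 * s) ^ 3 := h2
          _ = 8 * s ^ 3 := by ring
      refine (Nat.cast_le.2 h1).trans (h3.trans ?_)
      have h4 : (0 : ℝ) ≤ (R0 : ℝ) ^ 4 * s ^ 3 := by positivity
      nlinarith
    · rw [not_le] at hRR
      have h1 : {κ : ℕ | κ < X ∧ ∃ y ∈ IntermediateField.adjoin ℚ
          (insert (x + κ) (Set.range ψ)),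
          evalEval (x + κ) y (g.map (mapRingHom (ψ.comp (algebraMap (𝓞 k) k)))) = 0}.ncard ≤
          X := by
        refine (Set.ncard_le_ncard (t := {κ : ℕ | κ < X}) (fun κ hκ => hκ.1)
          (Set.finite_lt_nat X)).trans ?_
        have e : {κ : ℕ | κ < X} = ((Finset.range X : Finset ℕ) : Set ℕ) := by
          ext
          simp
        rw [e, Set.ncard_coe_finset, Finset.card_range]
      have h2 : X ≤ R0 ^ 4 := hR.trans (Nat.pow_le_pow_left hRR.le 4)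
      have h3 : ((R0 ^ 4 : ℕ) : ℝ) ≤ (R0 : ℝ) ^ 4 * s ^ 3 := by
        push_cast
        exact le_mul_of_one_le_right (by positivity) hs1
      refine (Nat.cast_le.2 (h1.trans h2)).trans (h3.trans ?_)
      have h4 : (0 : ℝ) ≤ (C' : ℝ) * s ^ 3 := by positivity
      nlinarith
  -- all the embeddings
  have h1 : {κ : ℕ | κ < X ∧ x + κ ∈ RtSet k g} =
      ⋃ ψ : k →+* QB, {κ : ℕ | κ < X ∧ ∃ y ∈ IntermediateField.adjoin ℚ
        (insert (x + κ) (Set.range ψ)),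
        evalEval (x + κ) y (g.map (mapRingHom (ψ.comp (algebraMap (𝓞 k) k)))) = 0} := by
    ext κ
    rw [Set.mem_iUnion]
    constructor
    · rintro ⟨h1, ψ, h2⟩
      exact ⟨ψ, h1, h2⟩
    · rintro ⟨ψ, h1, h2⟩
      exact ⟨h1, ψ, h2⟩
  have h2 : {κ : ℕ | κ < X ∧ x + κ ∈ RtSet k g}.ncard ≤
      ∑ ψ : k →+* QB, {κ : ℕ | κ < X ∧ ∃ y ∈ IntermediateField.adjoin ℚ
        (insert (x + κ) (Set.range ψ)),
        evalEval (x + κ) y (g.map (mapRingHom (ψ.comp (algebraMap (𝓞 k) k)))) = 0}.ncard := by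
    rw [h1]
    exact Set.ncard_iUnion_le_of_fintype _
  have h3 : (Nat.card {κ : ℕ // κ < X ∧ x + κ ∈ RtSet k g} : ℝ) =
      ({κ : ℕ | κ < X ∧ x + κ ∈ RtSet k g}.ncard : ℝ) := rfl
  rw [h3, ← hs3]
  refine (Nat.cast_le.2 h2).trans ?_
  push_cast
  refine (Finset.sum_le_sum fun ψ _ => key ψ).trans ?_
  rw [Finset.sum_const, nsmul_eq_mul, Finset.card_univ, mul_assoc]

end Pool.Agent.HUK.H56
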