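import Pool.Agent.HUK.Stmts

/-! HUK, row HOI: the house does not change in an extension. -/

set_option autoImplicit false

namespace Pool.Agent.HUK.H56

open NumberField

theorem house_le {L : Type} [Field L] [NumberField L] (y : L) (B : ℝ) (hB : 0 ≤ B)
    (h : ∀ φ : L →+* ℂ, ‖φ y‖ ≤ B) : house y ≤ B := by
  unfold house
  exact (pi_norm_le_iff_of_nonneg hB).2 h

/-- every embedding of `k` extends to `K` -/
theorem extend {k K : Type} [Field k] [NumberField k] [Field K] [NumberField K] (j : k →+* K)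
    (σ : k →+* ℂ) : ∃ φ : K →+* ℂ, φ.comp j = σ := by
  letI := j.toAlgebra
  letI := σ.toAlgebra
  haveI : IsScalarTower ℚ k K := IsScalarTower.of_algebraMap_eq' (Subsingleton.elim _ _)
  haveI : Algebra.IsAlgebraic k K := Algebra.IsAlgebraic.tower_top (K := ℚ) k
  obtain ⟨φ, hφ⟩ : ∃ φ : K →ₐ[k] ℂ, φ = IsAlgClosed.lift := ⟨_, rfl⟩
  exact ⟨φ.toRingHom, RingHom.ext fun c => φ.commutes c⟩

/-- HOI -/
theorem hoi : HoiStmt := by
  intro k K _ _ _ _ j x
  apply le_antisymm
  · refine house_le _ _ (house_nonneg x) fun φ => ?_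
    exact norm_embedding_le_house x (φ.comp j)
  · refine house_le _ _ (house_nonneg (j x)) fun σ => ?_
    obtain ⟨φ, rfl⟩ := extend j σ
    exact norm_embedding_le_house (j x) φ

end Pool.Agent.HUK.H56
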